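import Pool.Agent.helper10.NA.Defs

set_option autoImplicit false

/-!
# Energies II
-/

namespace Pool.Agent.helper67.NA

open Pool.Agent.helper7.UG Pool.Agent.helper10.NA

/-- The square of the norm. -/


theorem wt_nonneg (i : Fin 4) : 0 ≤ wt i := by
  unfold wt
  split_ifs <;> norm_num

theorem En_nonneg {P : Type} (s : Fin 4 → P → P) (f : P → ℝ) : 0 ≤ En s f :=
  Finset.sum_nonneg fun i _ => mul_nonneg (wt_nonneg i) (tsum_nonneg fun _ => sq_nonneg _)

theorem bdd (K : Subgroup F4) :
    BddBelow {t | ∃ f : F4 ⧸ K → ℝ, f.support.Finite ∧ Pool.Agent.helper10.NA.sq f = 1 ∧ En (lm K) f = t} := by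
  refine ⟨0, ?_⟩
  rintro t ⟨f, _, _, rfl⟩
  exact En_nonneg _ _

theorem nonempty (K : Subgroup F4) :
    {t | ∃ f : F4 ⧸ K → ℝ, f.support.Finite ∧ Pool.Agent.helper10.NA.sq f = 1 ∧ En (lm K) f = t}.Nonempty := by
  classical
  refine ⟨_, Pi.single ((1 : F4) : F4 ⧸ K) 1, ?_, ?_, rfl⟩
  · exact (Set.finite_singleton ((1 : F4) : F4 ⧸ K)).subset Pi.support_single_subset
  · unfold Pool.Agent.helper10.NA.sq
    rw [tsum_eq_single ((1 : F4) : F4 ⧸ K)]
    · simp
    · intro x hx
      simp [Pi.single_eq_of_ne hx]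

theorem en_le (K : Subgroup F4) (f : F4 ⧸ K → ℝ) (hf : f.support.Finite) (h1 : Pool.Agent.helper10.NA.sq f = 1) :
    en K ≤ En (lm K) f := csInf_le (bdd K) ⟨f, hf, h1, rfl⟩

theorem exists_near' (K : Subgroup F4) (δ : ℝ) (hδ : 0 < δ) :
    ∃ f : F4 ⧸ K → ℝ, f.support.Finite ∧ Pool.Agent.helper10.NA.sq f = 1 ∧ En (lm K) f < en K + δ := by
  obtain ⟨t, ⟨f, hf, h1, rfl⟩, h2⟩ := exists_lt_of_csInf_lt (nonempty K)
    (show en K < en K + δ by linarith)
  exact ⟨f, hf, h1, h2⟩

theorem en_of_folner (R : Subgroup F4) [R.Normal] (h : HasFolner (F4 ⧸ R)) : en R ≤ 0 := by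
  classical
  obtain ⟨E, hE, hlim⟩ := h
  have key : ∀ n, en R ≤ ∑ i, wt i * ((Set.ncard (symmDiff ((fun x => ((FreeGroup.of i : F4) :
      F4 ⧸ R) * x) '' (E n : Set (F4 ⧸ R))) (E n : Set (F4 ⧸ R))) : ℝ) / (E n).card) := by
    intro n
    have hc : (0 : ℝ) < (E n).card := by exact_mod_cast (hE n).card_pos
    set c : ℝ := (Real.sqrt (E n).card)⁻¹ with hcdef
    have hc2 : c ^ 2 = ((E n).card : ℝ)⁻¹ := by
      rw [hcdef, inv_pow, Real.sq_sqrt hc.le]
    set f : F4 ⧸ R → ℝ := fun x => if x ∈ E n then c else 0 with hf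
    have hsupp : f.support ⊆ (E n : Set (F4 ⧸ R)) := by
      intro x hx
      by_contra hx'
      apply hx
      simp only [hf]
      rw [if_neg]
      exact fun h => hx' (Finset.mem_coe.2 h)
    have hsq : Pool.Agent.helper10.NA.sq f = 1 := by
      unfold Pool.Agent.helper10.NA.sq
      rw [tsum_eq_sum (s := E n)]
      · have : ∀ x ∈ E n, f x ^ 2 = c ^ 2 := by
          intro x hx
          simp only [hf, if_pos hx]
        rw [Finset.sum_congr rfl this, Finset.sum_const, nsmul_eq_mul, hc2]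
        exact mul_inv_cancel₀ hc.ne'
      · intro x hx
        simp only [hf, if_neg hx]
        ring
    refine (en_le R f ((E n).finite_toSet.subset hsupp) hsq).trans (le_of_eq ?_)
    unfold En
    refine Finset.sum_congr rfl fun i _ => ?_
    congr 1
    set g : F4 ⧸ R := ((FreeGroup.of i : F4) : F4 ⧸ R) with hg
    have hlm : ∀ x, lm R i x = g * x := by
      intro x
      induction x using QuotientGroup.induction_on with
      | H z => rfl
    set D : Set (F4 ⧸ R) := symmDiff ((fun x => g * x) '' (E n : Set (F4 ⧸ R)))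
      (E n : Set (F4 ⧸ R)) with hD
    have hDfin : D.Finite := (((E n).finite_toSet.image _).union (E n).finite_toSet).subset
      (fun x hx => by
        rcases hx with ⟨h1, _⟩ | ⟨h1, _⟩
        · exact Or.inl h1
        · exact Or.inr h1)
    have hmemD : ∀ x, g * x ∈ D ↔ ¬ (x ∈ E n ↔ g * x ∈ E n) := by
      intro x
      rw [hD, Set.mem_symmDiff]
      have h1 : g * x ∈ (fun x => g * x) '' (E n : Set (F4 ⧸ R)) ↔ x ∈ E n := by
        constructor
        · rintro ⟨y, hy, hxy⟩
          have : y = x := mul_left_cancel hxy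
          rw [← this]
          exact Finset.mem_coe.1 hy
        · intro hx
          exact ⟨x, Finset.mem_coe.2 hx, rfl⟩
      rw [h1, Finset.mem_coe]
      tauto
    have hval : ∀ x, (f (lm R i x) - f x) ^ 2 = if g * x ∈ D then c ^ 2 else 0 := by
      intro x
      rw [hlm]
      simp only [hf]
      by_cases h1 : x ∈ E n <;> by_cases h2 : g * x ∈ E n
      · rw [if_pos h1, if_pos h2, if_neg]
        · ring
        · rw [hmemD]; tauto
      · rw [if_pos h1, if_neg h2, if_pos]
        · ring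
        · rw [hmemD]; tauto
      · rw [if_neg h1, if_pos h2, if_pos]
        · ring
        · rw [hmemD]; tauto
      · rw [if_neg h1, if_neg h2, if_neg]
        · ring
        · rw [hmemD]; tauto
    simp only [hval]
    have e1 : ∑' x, (if g * x ∈ D then c ^ 2 else (0 : ℝ)) = ∑' x, (if x ∈ D then c ^ 2 else (0 : ℝ)) :=
      (Equiv.mulLeft g).tsum_eq (fun x => if x ∈ D then c ^ 2 else (0 : ℝ))
    rw [e1, tsum_eq_sum (s := hDfin.toFinset)]
    · have : ∀ x ∈ hDfin.toFinset, (if x ∈ D then c ^ 2 else (0 : ℝ)) = c ^ 2 := by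
        intro x hx
        rw [if_pos (hDfin.mem_toFinset.1 hx)]
      rw [Finset.sum_congr rfl this, Finset.sum_const, nsmul_eq_mul, hc2,
        ← Set.ncard_eq_toFinset_card D hDfin]
      rfl
    · intro x hx
      rw [if_neg]
      exact fun h => hx (hDfin.mem_toFinset.2 h)
  have hlim2 : Filter.Tendsto (fun n => ∑ i : Fin 4, wt i * ((Set.ncard (symmDiff ((fun x =>
      ((FreeGroup.of i : F4) : F4 ⧸ R) * x) '' (E n : Set (F4 ⧸ R))) (E n : Set (F4 ⧸ R))) : ℝ) /
      (E n).card)) Filter.atTop (nhds (∑ i : Fin 4, wt i * 0)) :=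
    tendsto_finsetSum _ fun i _ => (hlim _).const_mul _
  simp only [mul_zero, Finset.sum_const_zero] at hlim2
  exact ge_of_tendsto hlim2 (Filter.Eventually.of_forall key)

/-- Lifting a finitely supported function through a partial section. -/
theorem lift_energy {P P' : Type} (s : P → P) (s' : P' → P') (hs : Function.Injective s)
    (π : P → P') (hπ : ∀ p, π (s p) = s' (π p)) (f : P' → ℝ) (hf : f.support.Finite)
    (j : P' → P) (hj : ∀ x ∈ f.support, π (j x) = x)
    (hrel : ∀ x ∈ f.support, s' x ∈ f.support → s (j x) = j (s' x))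
    (F : P → ℝ) (hF1 : ∀ x ∈ f.support, F (j x) = f x)
    (hF2 : ∀ p, F p ≠ 0 → ∃ x ∈ f.support, p = j x) (hs' : Function.Injective s') :
    ∑' p, (F (s p) - F p) ^ 2 ≤ ∑' x, (f (s' x) - f x) ^ 2 := by
  classical
  have hFz : ∀ p, F p ≠ 0 ↔ ∃ x ∈ f.support, p = j x := by
    intro p
    refine ⟨hF2 p, ?_⟩
    rintro ⟨x, hx, rfl⟩
    rw [hF1 x hx]
    exact hx
  have hFπ : ∀ p, F p ≠ 0 → p = j (π p) ∧ π p ∈ f.support := by
    intro p hp
    obtain ⟨x, hx, rfl⟩ := hF2 p hp
    rw [hj x hx]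
    exact ⟨rfl, hx⟩
  have hFval : ∀ p, F p ≠ 0 → F p = f (π p) := by
    intro p hp
    obtain ⟨h1, h2⟩ := hFπ p hp
    rw [h1, hF1 _ h2, hj _ h2]
  set T : Set P := {p | F (s p) ≠ 0 ∨ F p ≠ 0} with hT
  have hdiff : ∀ p ∈ T, F (s p) - F p = f (s' (π p)) - f (π p) := by
    intro p hp
    by_cases h1 : F (s p) = 0
    · have h2 : F p ≠ 0 := by
        rcases hp with hp | hp
        · exact absurd h1 hp
        · exact hp
      obtain ⟨h3, h4⟩ := hFπ p h2
      have h5 : f (s' (π p)) = 0 := by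
        by_contra h6
        have h7 := hrel _ h4 h6
        rw [← h3] at h7
        rw [h7, hF1 _ h6] at h1
        exact h6 h1
      rw [h1, h5, hFval p h2]
    · by_cases h2 : F p = 0
      · have h3 : f (π p) = 0 := by
          by_contra h6
          obtain ⟨h4, h5⟩ := hFπ _ h1
          rw [hπ] at h4 h5
          have h7 := hrel _ h6 h5
          rw [← h4] at h7
          have h8 := hs h7
          rw [← h8, hF1 _ h6] at h2
          exact h6 h2
        rw [h2, h3, hFval _ h1, hπ]
      · rw [hFval _ h1, hFval _ h2, hπ]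
  have hinj : Set.InjOn π T := by
    have hA : ∀ p, F (s p) ≠ 0 → ∀ q, F q ≠ 0 → π p = π q → p = q := by
      intro p hp q hq hpq
      obtain ⟨h1, h2⟩ := hFπ _ hp
      obtain ⟨h3, h4⟩ := hFπ _ hq
      rw [hπ] at h1 h2
      rw [hpq] at h1 h2
      have h5 := hrel _ h4 h2
      rw [← h3] at h5
      rw [← h5] at h1
      exact hs h1
    intro p hp q hq hpq
    rcases hp with hp | hp <;> rcases hq with hq | hq
    · obtain ⟨h1, h2⟩ := hFπ _ hp
      obtain ⟨h3, h4⟩ := hFπ _ hq
      apply hs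
      rw [h1, h3, hπ, hπ, hpq]
    · exact hA p hp q hq hpq
    · exact (hA q hq p hp hpq.symm).symm
    · obtain ⟨h1, h2⟩ := hFπ _ hp
      obtain ⟨h3, h4⟩ := hFπ _ hq
      rw [h1, h3, hpq]
  have hsupp : Function.support (fun p => (F (s p) - F p) ^ 2) ⊆ T := by
    intro p hp
    by_contra h
    simp only [hT, Set.mem_ofPred_eq, not_or, not_not] at h
    apply hp
    show (F (s p) - F p) ^ 2 = 0
    rw [h.1, h.2]
    ring
  rw [← tsum_subtype_eq_of_support_subset hsupp]
  have hsum : Summable fun x => (f (s' x) - f x) ^ 2 := by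
    refine summable_of_hasFiniteSupport ((hf.union (hf.preimage hs'.injOn)).subset ?_)
    intro x hx
    by_contra h
    simp only [Set.mem_union, Function.mem_support, Set.mem_preimage, not_or, not_not] at h
    apply hx
    show (f (s' x) - f x) ^ 2 = 0
    rw [h.1, h.2]
    ring
  have hTfin : T.Finite := by
    refine Set.Finite.of_injOn (f := π) (t := f.support ∪ s' ⁻¹' f.support) ?_ hinj
      (hf.union (hf.preimage hs'.injOn))
    rintro p (hp | hp)
    · right
      have := (hFπ _ hp).2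
      rwa [hπ] at this
    · left
      exact (hFπ _ hp).2
  have : Finite T := hTfin
  refine Summable.tsum_le_tsum_of_inj (fun p : T => π p.1) ?_ ?_ ?_ ?_ hsum
  · intro p q hpq
    exact Subtype.ext (hinj p.2 q.2 hpq)
  · intro x _
    exact sq_nonneg _
  · intro p
    show (F (s p.1) - F p.1) ^ 2 ≤ _
    rw [hdiff p.1 p.2]
  · exact summable_of_hasFiniteSupport (Set.toFinite _)

theorem en_limit (R : Subgroup F4) (K : ℕ → Subgroup F4) (hmono : ∀ n, K n ≤ K (n + 1))
    (hK : ∀ w, w ∈ R ↔ ∃ n, w ∈ K n) (δ : ℝ) (hδ : 0 < δ) : ∃ n, en (K n) < en R + δ := by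
  classical
  obtain ⟨f, hf, h1, h2⟩ := exists_near' R δ hδ
  have hmono' : Monotone K := monotone_nat_of_le_succ hmono
  set σ : F4 ⧸ R → F4 := Quotient.out with hσ
  have hσ' : ∀ x, ((σ x : F4) : F4 ⧸ R) = x := fun x => QuotientGroup.out_eq' x
  -- finitely many relations
  have hrel : ∀ i : Fin 4, ∀ x : F4 ⧸ R, ∃ n, (σ (lm R i x))⁻¹ * (FreeGroup.of i * σ x) ∈ K n := by
    intro i x
    rw [← hK, ← QuotientGroup.eq, hσ']
    conv_lhs => rw [← hσ' x]
    rfl
  choose N hN using hrel
  set S : Finset (F4 ⧸ R) := hf.toFinset with hS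
  set n : ℕ := (Finset.univ ×ˢ S).sup (fun p : Fin 4 × (F4 ⧸ R) => N p.1 p.2) with hn
  refine ⟨n, lt_of_le_of_lt ?_ h2⟩
  have hKR : K n ≤ R := fun w hw => (hK w).2 ⟨n, hw⟩
  set π : F4 ⧸ K n → F4 ⧸ R := Subgroup.quotientMapOfLE hKR with hπ
  have hπmk : ∀ w : F4, π ((w : F4) : F4 ⧸ K n) = ((w : F4) : F4 ⧸ R) := fun w => rfl
  set j : F4 ⧸ R → F4 ⧸ K n := fun x => ((σ x : F4) : F4 ⧸ K n) with hj
  have hπj : ∀ x, π (j x) = x := fun x => by rw [hj]; exact hσ' x
  set F : F4 ⧸ K n → ℝ := fun p => if p = j (π p) then f (π p) else 0 with hF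
  have hFj : ∀ x, F (j x) = f x := by
    intro x
    simp only [hF, hπj, if_true]
  have hFne : ∀ p, F p ≠ 0 → ∃ x ∈ f.support, p = j x := by
    intro p hp
    by_cases h3 : p = j (π p)
    · refine ⟨π p, ?_, h3⟩
      simp only [hF, if_pos h3] at hp
      exact hp
    · simp only [hF, if_neg h3] at hp
      exact absurd rfl hp
  have hFfin : F.support.Finite := by
    refine (hf.image j).subset ?_
    intro p hp
    obtain ⟨x, hx, h3⟩ := hFne p hp
    exact ⟨x, hx, h3.symm⟩
  have hjinj : Function.Injective j := fun x y h => by rw [← hπj x, ← hπj y, h]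
  have hsq : Pool.Agent.helper10.NA.sq F = 1 := by
    rw [← h1]
    unfold Pool.Agent.helper10.NA.sq
    have : Function.support (fun p => F p ^ 2) ⊆ Set.range j := by
      intro p hp
      have : F p ≠ 0 := by
        intro h
        apply hp
        show F p ^ 2 = 0
        rw [h]
        ring
      obtain ⟨x, _, h3⟩ := hFne p this
      exact ⟨x, h3.symm⟩
    rw [← hjinj.tsum_eq this]
    exact tsum_congr fun x => by rw [hFj]
  refine (en_le (K n) F hFfin hsq).trans ?_
  unfold En
  refine Finset.sum_le_sum fun i _ => mul_le_mul_of_nonneg_left ?_ (wt_nonneg i)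
  refine lift_energy (lm (K n) i) (lm R i) (MulAction.injective _) π ?_ f hf j
    (fun x _ => hπj x) ?_ F (fun x _ => hFj x) hFne (MulAction.injective _)
  · intro p
    induction p using QuotientGroup.induction_on with
    | H z => rfl
  · intro x hx _
    have h3 : N i x ≤ n := by
      rw [hn]
      exact Finset.le_sup (f := fun p : Fin 4 × (F4 ⧸ R) => N p.1 p.2) (b := (i, x))
        (Finset.mem_product.2 ⟨Finset.mem_univ _, hf.mem_toFinset.2 hx⟩)
    have h4 := hmono' h3 (hN i x)
    rw [← QuotientGroup.eq] at h4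
    rw [hj]
    exact h4.symm

theorem gap_free {P : Type} [MulAction F4 P] (K : Subgroup F4)
    (hst : ∀ p : P, MulAction.stabilizer F4 p = K) (r : ℝ) (h : Gap K r) (f : P → ℝ)
    (hf : f.support.Finite) : r * Pool.Agent.helper10.NA.sq f ≤ En (fun i p => FreeGroup.of i • p) f := by
  classical
  let Ω := MulAction.orbitRel.Quotient F4 P
  let e : Ω × (F4 ⧸ K) → P := fun q => Quotient.liftOn' q.2 (fun g => g • (Quotient.out q.1 : P))
    (by
      intro a b hab
      rw [QuotientGroup.leftRel_apply, ← hst (Quotient.out q.1), MulAction.mem_stabilizer_iff] at hab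
      show a • _ = b • _
      rw [mul_smul, inv_smul_eq_iff] at hab
      exact hab.symm)
  have he : ∀ (ω : Ω) (g : F4), e (ω, (g : F4 ⧸ K)) = g • (Quotient.out ω : P) := fun ω g => rfl
  have hsmul : ∀ (ω : Ω) (x : F4 ⧸ K) (g : F4), e (ω, g • x) = g • e (ω, x) := by
    intro ω x g
    induction x using QuotientGroup.induction_on with
    | H z =>
      show e (ω, ((g * z : F4) : F4 ⧸ K)) = _
      rw [he, he, mul_smul]
  have hcls : ∀ (ω : Ω) (x : F4 ⧸ K), (Quotient.mk'' (e (ω, x)) : Ω) = ω := by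
    intro ω x
    induction x using QuotientGroup.induction_on with
    | H z =>
      rw [he]
      have h1 : (Quotient.mk'' (z • (Quotient.out ω : P)) : Ω) = Quotient.mk'' (Quotient.out ω : P) :=
        Quotient.sound' ⟨z, rfl⟩
      rw [h1]
      exact Quotient.out_eq' ω
  have hinj : Function.Injective e := by
    rintro ⟨ω, x⟩ ⟨ω', x'⟩ hxy
    have h1 : ω = ω' := by rw [← hcls ω x, ← hcls ω' x', hxy]
    subst h1
    congr 1
    induction x using QuotientGroup.induction_on with
    | H z =>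
      induction x' using QuotientGroup.induction_on with
      | H z' =>
        rw [he, he] at hxy
        rw [QuotientGroup.eq, ← hst (Quotient.out ω), MulAction.mem_stabilizer_iff, mul_smul,
          inv_smul_eq_iff]
        exact hxy.symm
  have hsurj : Function.Surjective e := by
    intro p
    have h1 : (Quotient.mk'' (Quotient.out (Quotient.mk'' p : Ω) : P) : Ω) = Quotient.mk'' p :=
      Quotient.out_eq' _
    obtain ⟨g, hg⟩ := Quotient.exact h1.symm
    exact ⟨(Quotient.mk'' p, ((g : F4) : F4 ⧸ K)), hg⟩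
  let E : Ω × (F4 ⧸ K) ≃ P := Equiv.ofBijective e ⟨hinj, hsurj⟩
  -- finiteness
  have hF : ∀ ω : Ω, (Function.support fun x => f (e (ω, x))).Finite := by
    intro ω
    refine Set.Finite.preimage (f := fun x => e (ω, x)) (s := f.support) ?_ hf
    intro x _ y _ hxy
    exact (Prod.mk.inj (hinj hxy)).2
  have hsumm : ∀ G : P → ℝ, G.support.Finite → Summable (fun q : Ω × (F4 ⧸ K) => G (e q)) := by
    intro G hG
    refine summable_of_hasFiniteSupport ?_
    exact Set.Finite.preimage (f := e) (s := G.support) hinj.injOn hG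
  have htsum : ∀ G : P → ℝ, G.support.Finite →
      ∑' p, G p = ∑' ω : Ω, ∑' x : F4 ⧸ K, G (e (ω, x)) := by
    intro G hG
    rw [← E.tsum_eq G]
    exact (hsumm G hG).tsum_prod
  have hsumm' : ∀ G : P → ℝ, G.support.Finite →
      Summable (fun ω : Ω => ∑' x : F4 ⧸ K, G (e (ω, x))) := fun G hG => (hsumm G hG).prod
  have hsupp2 : (Function.support fun p => f p ^ 2).Finite :=
    hf.subset fun p hp => by
      intro h0
      apply hp
      show f p ^ 2 = 0
      rw [h0]
      ring
  have hsuppi : ∀ i : Fin 4, (Function.support fun p : P =>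
      (f ((FreeGroup.of i : F4) • p) - f p) ^ 2).Finite := by
    intro i
    refine ((hf.preimage (MulAction.injective (FreeGroup.of i : F4)).injOn).union hf).subset ?_
    intro p hp
    by_contra h0
    simp only [Set.mem_union, Function.mem_support, Set.mem_preimage, not_or, not_not] at h0
    apply hp
    show (f ((FreeGroup.of i : F4) • p) - f p) ^ 2 = 0
    rw [h0.1, h0.2]
    ring
  unfold Pool.Agent.helper10.NA.sq En
  rw [htsum _ hsupp2, ← tsum_mul_left]
  have hR : ∑ i : Fin 4, wt i * ∑' p : P, (f ((FreeGroup.of i : F4) • p) - f p) ^ 2 =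
      ∑' ω : Ω, ∑ i : Fin 4, wt i * ∑' x : F4 ⧸ K,
        (f ((FreeGroup.of i : F4) • e (ω, x)) - f (e (ω, x))) ^ 2 := by
    rw [Summable.tsum_finsetSum]
    · refine Finset.sum_congr rfl fun i _ => ?_
      rw [htsum _ (hsuppi i), tsum_mul_left]
    · intro i _
      exact (hsumm' _ (hsuppi i)).mul_left _
  rw [hR]
  refine Summable.tsum_le_tsum ?_ ((hsumm' _ hsupp2).mul_left _)
    (summable_sum fun i _ => (hsumm' _ (hsuppi i)).mul_left _)
  intro ω
  have h3 := h (fun x => f (e (ω, x))) (hF ω)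
  unfold Pool.Agent.helper10.NA.sq En at h3
  refine h3.trans (le_of_eq ?_)
  refine Finset.sum_congr rfl fun i _ => ?_
  congr 1
  refine tsum_congr fun x => ?_
  rw [← hsmul]
  rfl

end Pool.Agent.helper67.NA
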